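import Pool.Agent.H83.HN.Class
import Pool.Agent.H83.HN.LAT
import Pool.Agent.H77.HN.TrivOf
import Pool.Agent.H35.HN.INVF

/-!
# Hyperkaehler manifolds of dimension `2n` with `b_2 >= 4n + 3`: the last theorem

Every nef class of a member `X` of the class is semiample. For an isotropic class `L ≠ 0` one
passes (Matsushita's theorem) to a member `Y` with rational period on which `L` is nef, the prime
divisors orthogonal to `L` are proportional to `L` and a group of rank `4n - 1` of automorphisms acts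
by transvections. Let `k` be the Iitaka dimension of `L` on `Y`. If `k >= n`, then `L` is semiample
(Kawamata). If `k < n`, a subgroup of finite index acts trivially on the base of the Iitaka
fibration, the very general orbit of every non trivial element is dense in the fibre, and the
arithmetic argument gives a contradiction.
-/

namespace Pool.Agent.H20.HN

open Pool.Agent.H83.HN Pool.Agent.H13.HN

/-- THE ARITHMETIC ARGUMENT (module ENDn), as a proposition. -/
def Endgame : Prop :=
  ∀ (n : ℕ) (Lam : Type) [AddCommGroup Lam] (q : Lam → Lam → ℤ), 2 ≤ n →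
    (∀ x y, q x y = q y x) → (∀ x y z, q (x + y) z = q x z + q y z) → Module.Finite ℤ Lam →
    ∀ (M : Manifold n Lam q) (L A : Lam) (I : Iitaka M L), I.k < n → A ∈ M.VeryAmple →
    L ∈ M.Nef → q L L = 0 → L ≠ 0 → 0 < q L A →
    ∀ (r : ℕ) (π : Para M L A r), 2 * n + 2 * I.k + 1 ≤ r → (∀ g, π.rho g ∈ I.triv) →
    (∃ bad : ℕ → Set M.P, (∀ i, IsClosed (bad i) ∧ bad i ≠ Set.univ) ∧
      ∀ x, (∀ i, x ∉ bad i) → ∀ m : Fin r → ℤ, m ≠ 0 →
        I.Fib x ⊆ closure (Set.range fun k : ℤ => π.rho (k • m) • x)) →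
    ∀ (p : ℕ) [Fact p.Prime]
      (_ : Disc q (M.NS : Set Lam) M.Ample (M.Sec A) n (fun k (y : M.P) => π.rho k • y)
        (fun k x => M.pull (π.rho k) x) A {y | I.s 0 y ≠ 0} (fun y u => I.J y A u) p), False

/-- THE LAST THEOREM, from the arithmetic argument. -/
theorem statement_of (endgame : Endgame) : Statement := by
  intro n hn Lam _ C hrank X L hL
  have hfin := C.finite
  by_cases hL0 : L = 0
  · rw [hL0]
    exact (C.M X).semiample_zero
  rcases ((C.M X).nef_q L hL).lt_or_eq with hpos | hzero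
  · exact (C.M X).bpf L hL hpos
  have hLL : C.q L L = 0 := hzero.symm
  obtain ⟨Y, hper, hLY, hprime, A, hA, ⟨π⟩⟩ := lat C.toModClass (4 * n - 1) (by omega) X hL hL0 hLL
  refine C.matsushita X Y L hL0 hLL hL hLY ?_
  have hY : C.RatPeriod Y := hper
  have hqLA : 0 < C.q L A := by
    rw [C.q_symm]
    exact (C.M Y).ample_nef_q A ((C.M Y).va_ample hA) L hLY hL0
  rcases Nat.lt_or_ge (C.iit Y hY L hLY hLL hL0).k n with hk | hk
  · exfalso
    obtain ⟨m, hm, htriv⟩ :=
      Pool.Agent.H79.HN.triv_of π (C.iit Y hY L hLY hLL hL0) C.q_symm hLY hLL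
    have h0 : 0 < 4 * n - 1 := by omega
    have hg0 : (Pi.single ⟨0, h0⟩ 1 : Fin (4 * n - 1) → ℤ) ≠ 0 := by
      intro h
      have := congrFun h ⟨0, h0⟩
      simp at this
    obtain ⟨m', hm', p, hp, ⟨D⟩⟩ :=
      C.exists_disc Y hY L hLY hLL hL0 hA (π.mul m hm) htriv hk.le _ hg0
    exact endgame n Lam C.q hn C.q_symm C.q_add hfin (C.M Y) L A (C.iit Y hY L hLY hLL hL0) hk hA
      hLY hLL hL0 hqLA (4 * n - 1) ((π.mul m hm).mul m' hm') (by omega) (fun g => htriv _)
      (Pool.Agent.H35.HN.orbit_closure C.q_symm C.q_add hLY hprime _ _) p D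
  · exact (C.iit Y hY L hLY hLL hL0).kawamata hk

end Pool.Agent.H20.HN
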