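import Pool.Agent.H20.HN.FIN
import Pool.Agent.H74.HN.END

/-!
# Nef classes on hyperkaehler manifolds of dimension `2n` with `b_2 >= 4n + 3` are semiample
-/

namespace Pool.Agent.H20.HN

open Pool.Agent.H83.HN Pool.Agent.H13.HN

/-- Every nef class of a member of a deformation class of dimension `2n` with `b_2 >= 4n + 3` is
semiample. -/
theorem main : Statement :=
  statement_of fun _ _ _ _ _ hsymm hadd _ _ _ _ I hk hA hL hLL hL0 _ _ π hr htriv hAC _ _ D =>
    Pool.Agent.H74.HN.endgame hadd hsymm I hk hA hL hLL hL0 π hr htriv hAC D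

end Pool.Agent.H20.HN
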